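import Mathlib

/-!
# A Hadamard difference set whose development does not embed as a set of maximal arcs

The group is `ℤ/8 × ℤ/2` (so `b = 2`, `q = 4`), written additively.
-/

namespace Pool.Agent.Results.MP_82bed6_co.NotAlwaysMaximalArcs

open Configuration

universe u v

/-- `M` is a Hadamard difference set of order `2 ^ (2 b - 2)` in the abelian group `G`
(of order `2 ^ (2 b)`, written additively). -/
structure IsHadamardDifferenceSet (b : ℕ) {G : Type} [AddCommGroup G] (M : Set G) : Prop where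
  card_group : Nat.card G = 2 ^ (2 * b)
  card_set : M.ncard = 2 ^ (2 * b - 1) - 2 ^ (b - 1)
  reps : ∀ g : G, g ≠ 0 →
    {p : G × G | p.1 ∈ M ∧ p.2 ∈ M ∧ g = p.1 - p.2}.ncard = 2 ^ (2 * b - 2) - 2 ^ (b - 1)

/-- the set `A` of points meets every line in `0` or `d` points -/
def IsMaximalArc {P : Type u} (L : Type v) [Membership P L] (d : ℕ) (A : Set P) : Prop :=
  ∀ l : L, {p | p ∈ A ∧ p ∈ l}.ncard = 0 ∨ {p | p ∈ A ∧ p ∈ l}.ncard = d

/-- the development of `M` embeds into the plane as a set of maximal arcs of degree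
`2 ^ (b - 1)` -/
def EmbedsAsMaximalArcs (b : ℕ) {G : Type} [AddCommGroup G] (M : Set G)
    (P : Type u) (L : Type v) [Membership P L] : Prop :=
  ∃ φ : G → P, Function.Injective φ ∧
    ∀ g : G, IsMaximalArc L (2 ^ (b - 1)) (φ '' ((fun m => m + g) '' M))

/-- the group -/
abbrev G₀ : Type := ZMod 8 × ZMod 2

/-- the difference set -/
def M₀ : Finset G₀ := {(0, 0), (0, 1), (1, 0), (2, 0), (5, 1), (6, 0)}

theorem isHadamard : IsHadamardDifferenceSet 2 (M₀ : Set G₀) where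
  card_group := by simp [G₀]
  card_set := by
    rw [Set.ncard_coe_finset]
    decide +kernel
  reps := by
    have key : ∀ g : G₀, g ≠ 0 →
        (Finset.univ.filter (fun p : G₀ × G₀ => p.1 ∈ M₀ ∧ p.2 ∈ M₀ ∧ g = p.1 - p.2)).card
          = 2 := by
      decide +kernel
    intro g hg
    have h := key g hg
    have e : {p : G₀ × G₀ | p.1 ∈ (M₀ : Set G₀) ∧ p.2 ∈ (M₀ : Set G₀) ∧ g = p.1 - p.2} =
        ((Finset.univ.filter (fun p : G₀ × G₀ => p.1 ∈ M₀ ∧ p.2 ∈ M₀ ∧ g = p.1 - p.2) :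
          Finset (G₀ × G₀)) : Set (G₀ × G₀)) := by
      ext p; simp
    rw [e, Set.ncard_coe_finset, h]
    norm_num

/-- the number of `true` is `0` or `2` -/
def Ok (a b c d e f : Bool) : Prop :=
  a.toNat + b.toNat + c.toNat + d.toNat + e.toNat + f.toNat = 0 ∨
    a.toNat + b.toNat + c.toNat + d.toNat + e.toNat + f.toNat = 2

instance (a b c d e f : Bool) : Decidable (Ok a b c d e f) := by
  unfold Ok; infer_instance

set_option synthInstance.maxSize 4096 in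
set_option maxRecDepth 4096 in
lemma search₁ :
    ∀ v11 : Bool,
    ∀ v31 : Bool,
    ∀ v51 : Bool,
    ∀ v41 : Bool,
      Ok v31 true v41 v51 true v11 →
    ∀ v21 : Bool,
    ∀ v40 : Bool,
    ∀ v20 : Bool,
    ∀ v71 : Bool,
      Ok v20 v21 true v40 v71 true →
    ∀ v61 : Bool,
    ∀ v10 : Bool,
      Ok v41 v40 v51 v61 v10 v21 →
    ∀ v70 : Bool,
      Ok v10 v11 v20 true v61 v70 →
    ∀ v60 : Bool,
      Ok v11 v10 v21 v31 v60 v71 →
      Ok v60 v61 v70 true v31 v40 →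
    ∀ v50 : Bool,
      Ok v40 v41 v50 v60 v11 v20 →
      Ok v50 v51 v60 v70 v21 true →
      Ok v51 v50 v61 v71 v20 v31 →
      Ok v70 v71 true v10 v41 v50 →
    ∀ v01 : Bool,
      Ok true v01 v10 v20 v51 v60 →
      Ok v01 true v11 v21 v50 v61 →
      Ok v21 v20 v31 v41 v70 v01 →
      Ok true v31 v40 v50 v01 v10 →
      Ok v61 v60 v71 v01 true v41 →
      Ok v71 v70 v01 v11 v40 v51 →
    v01 = true ∧ v31 = false := by
  decide +kernel

set_option synthInstance.maxSize 4096 in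
set_option maxRecDepth 4096 in
lemma search₂ :
    ∀ v70 : Bool,
    ∀ v51 : Bool,
    ∀ v60 : Bool,
    ∀ v40 : Bool,
    ∀ v61 : Bool,
      Ok v60 v61 v70 true true v40 →
    ∀ v30 : Bool,
    ∀ v11 : Bool,
    ∀ v41 : Bool,
      Ok true v30 v41 v51 true v11 →
    ∀ v50 : Bool,
    ∀ v20 : Bool,
      Ok v40 v41 v50 v60 v11 v20 →
    ∀ v71 : Bool,
      Ok v51 v50 v61 v71 v20 true →
    ∀ v10 : Bool,
      Ok v10 v11 v20 v30 v61 v70 →
      Ok v70 v71 true v10 v41 v50 →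
    ∀ v21 : Bool,
      Ok v11 v10 v21 true v60 v71 →
      Ok v20 v21 v30 v40 v71 true →
      Ok v41 v40 v51 v61 v10 v21 →
      Ok v50 v51 v60 v70 v21 v30 →
    ∀ v01 : Bool,
      Ok true v01 v10 v20 v51 v60 →
      Ok v01 true v11 v21 v50 v61 →
      Ok v21 v20 true v41 v70 v01 →
      Ok v30 true v40 v50 v01 v10 →
      Ok v61 v60 v71 v01 v30 v41 →
      Ok v71 v70 v01 v11 v40 v51 →
    v01 = true := by
  decide +kernel

/-- the values of an indicator function on a translate of `M₀` -/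
lemma ok_of_line {P : Type u} {L : Type v} [Membership P L] {φ : G₀ → P}
    (hφ : Function.Injective φ)
    (h : ∀ g : G₀, IsMaximalArc L 2 (φ '' ((fun m => m + g) '' (M₀ : Set G₀)))) (l : L)
    (s : ZMod 8 → ZMod 2 → Bool) (hs : ∀ i j, s i j = true ↔ φ (i, j) ∈ l)
    (x : ZMod 8) (y : ZMod 2) :
    Ok (s x y) (s x (1 + y)) (s (1 + x) y) (s (2 + x) y) (s (5 + x) (1 + y)) (s (6 + x) y) := by
  classical
  have e : {p | p ∈ φ '' ((fun m => m + ((x, y) : G₀)) '' (M₀ : Set G₀)) ∧ p ∈ l} =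
      (((M₀.filter (fun m => s (m.1 + x) (m.2 + y) = true)).image
        (fun m => φ (m + (x, y))) : Finset P) : Set P) := by
    ext p
    simp only [Set.mem_ofPred_eq, Set.mem_image, Finset.mem_coe, Finset.coe_image,
      Finset.mem_filter, exists_exists_and_eq_and]
    constructor
    · rintro ⟨⟨m, hm, rfl⟩, hl⟩
      exact ⟨m, ⟨hm, (hs _ _).2 hl⟩, rfl⟩
    · rintro ⟨m, ⟨hm, hl⟩, rfl⟩
      exact ⟨⟨m, hm, rfl⟩, (hs _ _).1 hl⟩
  have e2 : {p | p ∈ φ '' ((fun m => m + ((x, y) : G₀)) '' (M₀ : Set G₀)) ∧ p ∈ l}.ncard =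
      (s x y).toNat + (s x (1 + y)).toNat + (s (1 + x) y).toNat + (s (2 + x) y).toNat +
        (s (5 + x) (1 + y)).toNat + (s (6 + x) y).toNat := by
    rw [e, Set.ncard_coe_finset, Finset.card_image_of_injective _
      (fun a b hab => add_right_cancel (hφ hab)), Finset.card_filter]
    have hM : M₀ = ({(0, 0), (0, 1), (1, 0), (2, 0), (5, 1), (6, 0)} : Finset G₀) := rfl
    have hT : ∀ b : Bool, (if b = true then 1 else 0) = b.toNat := by decide
    rw [hM]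
    rw [Finset.sum_insert (by decide), Finset.sum_insert (by decide),
      Finset.sum_insert (by decide), Finset.sum_insert (by decide),
      Finset.sum_insert (by decide), Finset.sum_singleton]
    simp only [hT, zero_add]
    ring
  unfold Ok
  rw [← e2]
  exact h (x, y) l

/-- a line through the images of `(0,0)` and `(3,0)` -/
lemma line₁ (s : ZMod 8 → ZMod 2 → Bool)
    (H : ∀ (x : ZMod 8) (y : ZMod 2),
      Ok (s x y) (s x (1 + y)) (s (1 + x) y) (s (2 + x) y) (s (5 + x) (1 + y)) (s (6 + x) y))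
    (ha : s 0 0 = true) (hb : s 3 0 = true) : s 0 1 = true ∧ s 3 1 = false := by
  have h00 : Ok (s 0 0) (s 0 1) (s 1 0) (s 2 0) (s 5 1) (s 6 0) := H 0 0
  have h01 : Ok (s 0 1) (s 0 0) (s 1 1) (s 2 1) (s 5 0) (s 6 1) := H 0 1
  have h10 : Ok (s 1 0) (s 1 1) (s 2 0) (s 3 0) (s 6 1) (s 7 0) := H 1 0
  have h11 : Ok (s 1 1) (s 1 0) (s 2 1) (s 3 1) (s 6 0) (s 7 1) := H 1 1
  have h20 : Ok (s 2 0) (s 2 1) (s 3 0) (s 4 0) (s 7 1) (s 0 0) := H 2 0
  have h21 : Ok (s 2 1) (s 2 0) (s 3 1) (s 4 1) (s 7 0) (s 0 1) := H 2 1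
  have h30 : Ok (s 3 0) (s 3 1) (s 4 0) (s 5 0) (s 0 1) (s 1 0) := H 3 0
  have h31 : Ok (s 3 1) (s 3 0) (s 4 1) (s 5 1) (s 0 0) (s 1 1) := H 3 1
  have h40 : Ok (s 4 0) (s 4 1) (s 5 0) (s 6 0) (s 1 1) (s 2 0) := H 4 0
  have h41 : Ok (s 4 1) (s 4 0) (s 5 1) (s 6 1) (s 1 0) (s 2 1) := H 4 1
  have h50 : Ok (s 5 0) (s 5 1) (s 6 0) (s 7 0) (s 2 1) (s 3 0) := H 5 0
  have h51 : Ok (s 5 1) (s 5 0) (s 6 1) (s 7 1) (s 2 0) (s 3 1) := H 5 1
  have h60 : Ok (s 6 0) (s 6 1) (s 7 0) (s 0 0) (s 3 1) (s 4 0) := H 6 0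
  have h61 : Ok (s 6 1) (s 6 0) (s 7 1) (s 0 1) (s 3 0) (s 4 1) := H 6 1
  have h70 : Ok (s 7 0) (s 7 1) (s 0 0) (s 1 0) (s 4 1) (s 5 0) := H 7 0
  have h71 : Ok (s 7 1) (s 7 0) (s 0 1) (s 1 1) (s 4 0) (s 5 1) := H 7 1
  rw [ha] at *
  rw [hb] at *
  exact search₁
    (s 1 1) (s 3 1) (s 5 1) (s 4 1) (h31) (s 2 1) (s 4 0) (s 2 0) (s 7 1) (h20) (s 6 1) (s 1 0)
     (h41) (s 7 0) (h10) (s 6 0) (h11) (h60) (s 5 0) (h40) (h50) (h51) (h70) (s 0 1) (h00)
     (h01) (h21) (h30) (h61) (h71)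

/-- a line through the images of `(0,0)` and `(3,1)` -/
lemma line₂ (s : ZMod 8 → ZMod 2 → Bool)
    (H : ∀ (x : ZMod 8) (y : ZMod 2),
      Ok (s x y) (s x (1 + y)) (s (1 + x) y) (s (2 + x) y) (s (5 + x) (1 + y)) (s (6 + x) y))
    (ha : s 0 0 = true) (hb : s 3 1 = true) : s 0 1 = true := by
  have h00 : Ok (s 0 0) (s 0 1) (s 1 0) (s 2 0) (s 5 1) (s 6 0) := H 0 0
  have h01 : Ok (s 0 1) (s 0 0) (s 1 1) (s 2 1) (s 5 0) (s 6 1) := H 0 1
  have h10 : Ok (s 1 0) (s 1 1) (s 2 0) (s 3 0) (s 6 1) (s 7 0) := H 1 0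
  have h11 : Ok (s 1 1) (s 1 0) (s 2 1) (s 3 1) (s 6 0) (s 7 1) := H 1 1
  have h20 : Ok (s 2 0) (s 2 1) (s 3 0) (s 4 0) (s 7 1) (s 0 0) := H 2 0
  have h21 : Ok (s 2 1) (s 2 0) (s 3 1) (s 4 1) (s 7 0) (s 0 1) := H 2 1
  have h30 : Ok (s 3 0) (s 3 1) (s 4 0) (s 5 0) (s 0 1) (s 1 0) := H 3 0
  have h31 : Ok (s 3 1) (s 3 0) (s 4 1) (s 5 1) (s 0 0) (s 1 1) := H 3 1
  have h40 : Ok (s 4 0) (s 4 1) (s 5 0) (s 6 0) (s 1 1) (s 2 0) := H 4 0
  have h41 : Ok (s 4 1) (s 4 0) (s 5 1) (s 6 1) (s 1 0) (s 2 1) := H 4 1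
  have h50 : Ok (s 5 0) (s 5 1) (s 6 0) (s 7 0) (s 2 1) (s 3 0) := H 5 0
  have h51 : Ok (s 5 1) (s 5 0) (s 6 1) (s 7 1) (s 2 0) (s 3 1) := H 5 1
  have h60 : Ok (s 6 0) (s 6 1) (s 7 0) (s 0 0) (s 3 1) (s 4 0) := H 6 0
  have h61 : Ok (s 6 1) (s 6 0) (s 7 1) (s 0 1) (s 3 0) (s 4 1) := H 6 1
  have h70 : Ok (s 7 0) (s 7 1) (s 0 0) (s 1 0) (s 4 1) (s 5 0) := H 7 0
  have h71 : Ok (s 7 1) (s 7 0) (s 0 1) (s 1 1) (s 4 0) (s 5 1) := H 7 1
  rw [ha] at *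
  rw [hb] at *
  exact search₂
    (s 7 0) (s 5 1) (s 6 0) (s 4 0) (s 6 1) (h60) (s 3 0) (s 1 1) (s 4 1) (h31) (s 5 0) (s 2 0)
     (h40) (s 7 1) (h51) (s 1 0) (h10) (h70) (s 2 1) (h11) (h20) (h41) (h50) (s 0 1) (h00)
     (h01) (h21) (h30) (h61) (h71)

theorem no_embedding (P : Type u) (L : Type v) [Membership P L] [ProjectivePlane P L]
    (h : EmbedsAsMaximalArcs 2 (M₀ : Set G₀) P L) : False := by
  classical
  obtain ⟨φ, hφ, h⟩ := h
  have h' : ∀ g : G₀, IsMaximalArc L 2 (φ '' ((fun m => m + g) '' (M₀ : Set G₀))) := by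
    simpa using h
  have main := fun l : L => ok_of_line hφ h' l (fun i j => decide (φ (i, j) ∈ l))
    (fun i j => by simp)
  have n1 : φ (0, 0) ≠ φ (3, 0) := fun e => absurd (hφ e) (by decide)
  have n2 : φ (0, 0) ≠ φ (3, 1) := fun e => absurd (hφ e) (by decide)
  have n3 : φ (0, 0) ≠ φ (0, 1) := fun e => absurd (hφ e) (by decide)
  obtain ⟨a1, a2⟩ := HasLines.mkLine_ax (L := L) n1
  obtain ⟨b1, b2⟩ := HasLines.mkLine_ax (L := L) n2
  obtain ⟨c1, c2⟩ := line₁ _ (main (HasLines.mkLine n1)) (by simpa using a1) (by simpa using a2)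
  have d1 := line₂ _ (main (HasLines.mkLine n2)) (by simpa using b1) (by simpa using b2)
  simp only [decide_eq_true_eq, decide_eq_false_iff_not] at c1 c2 d1
  rcases Nondegenerate.eq_or_eq a1 c1 b1 d1 with e | e
  · exact n3 e
  · rw [e] at c2
    exact c2 b2

theorem result : ∃ (b : ℕ) (_ : 1 ≤ b) (G : Type) (_ : AddCommGroup G) (M : Set G),
    IsHadamardDifferenceSet b M ∧
    ∀ (P : Type u) (L : Type v) [Membership P L] [ProjectivePlane P L] [Finite P] [Finite L],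
      ProjectivePlane.order P L = 2 ^ b → ¬ EmbedsAsMaximalArcs b M P L :=
  ⟨2, by norm_num, G₀, inferInstance, M₀, isHadamard,
    fun P L _ _ _ _ _ h => no_embedding P L h⟩

end Pool.Agent.Results.MP_82bed6_co.NotAlwaysMaximalArcs
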